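import Mathlib
import Pool.Agent.H36.ParityLA

namespace Pool.Agent.Results.MP_a46c6f_co.ParityFCC

open SimpleGraph

variable {V : Type*}

/-- A *circuit* of `G`: a connected 2-regular subgraph. -/
def IsCircuit {G : SimpleGraph V} (C : G.Subgraph) : Prop :=
  C.Connected ∧ ∀ v ∈ C.verts, (C.neighborSet v).ncard = 2

/-- `G` is a permutation graph with perfect matching `M`: `G` is cubic, `M` is a perfect matching
of `G`, and `G - M` is the union of two vertex-disjoint chordless circuits `C₁`, `C₂`. -/
structure IsPermutationGraph (G : SimpleGraph V) (M C₁ C₂ : G.Subgraph) : Prop where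
  cubic : ∀ v, (G.neighborSet v).ncard = 3
  perfect : M.IsPerfectMatching
  circuit₁ : IsCircuit C₁
  circuit₂ : IsCircuit C₂
  disjoint : Disjoint C₁.verts C₂.verts
  union : ∀ u v, (G.Adj u v ∧ ¬ M.Adj u v) ↔ (C₁.Adj u v ∨ C₂.Adj u v)
  chordless₁ : C₁.IsInduced
  chordless₂ : C₂.IsInduced

open Classical in
/-- The weight `w`: value `2` on the edges of `M` and `1` on all other edges. -/
noncomputable def wt {G : SimpleGraph V} (M : G.Subgraph) (e : Sym2 V) : ℕ :=
  if e ∈ M.edgeSet then 2 else 1

/-- `(G, w)` has a *faithful circuit cover*: a finite family of circuits of `G` such that every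
edge `e` of `G` lies in exactly `w e` members of the family. -/
def HasFaithfulCircuitCover (G : SimpleGraph V) (w : Sym2 V → ℕ) : Prop :=
  ∃ (k : ℕ) (𝒞 : Fin k → G.Subgraph), (∀ i, IsCircuit (𝒞 i)) ∧
    ∀ e ∈ G.edgeSet, {i | e ∈ (𝒞 i).edgeSet}.ncard = w e

/-! ### Enumerating a circuit -/

lemma exists_enum [Finite V] {G : SimpleGraph V} {C : G.Subgraph} (hC : IsCircuit C) :
    ∃ (n : ℕ) (c : ℕ → V), 3 ≤ n ∧ (∀ i, c (i + n) = c i) ∧ Set.InjOn c {i | i < n} ∧
      (∀ v, v ∈ C.verts ↔ ∃ i < n, c i = v) ∧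
      ∀ i t, C.Adj (c (i + 1)) t ↔ t = c i ∨ t = c (i + 2) := by
  classical
  obtain ⟨hconn, hdeg⟩ := hC
  set H := C.spanningCoe with hH
  have hcyc : H.IsCycles := by
    intro v hv
    obtain ⟨w, hw⟩ := hv
    have hvC : v ∈ C.verts := C.edge_vert hw
    exact hdeg v hvC
  obtain ⟨v₀, hv₀⟩ := hconn.nonempty
  have hn : (H.neighborSet v₀).Nonempty := by
    have := hdeg v₀ hv₀
    apply Set.nonempty_of_ncard_ne_zero
    show (C.neighborSet v₀).ncard ≠ 0
    omega
  obtain ⟨p, hp, hsupp⟩ := hcyc.exists_cycle_toSubgraph_verts_eq_connectedComponentSupp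
    (c := H.connectedComponentMk v₀) rfl hn
  have hverts : ∀ v, v ∈ C.verts ↔ v ∈ p.support := by
    intro v
    rw [← p.mem_verts_toSubgraph, hsupp, ConnectedComponent.mem_supp_iff, ConnectedComponent.eq]
    constructor
    · intro hv
      have := hconn.coe.preconnected ⟨v, hv⟩ ⟨v₀, hv₀⟩
      obtain ⟨q⟩ := this
      exact ⟨q.map ⟨fun x => x.1, fun {a b} h => h⟩⟩
    · intro hr
      obtain ⟨q⟩ := hr
      cases q with
      | nil => exact hv₀
      | cons h q => exact C.edge_vert h
  set n := p.length with hnlen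
  have hn3 : 3 ≤ n := hp.three_le_length
  refine ⟨n, fun i => p.getVert (i % n), hn3, ?_, ?_, ?_, ?_⟩
  · intro i
    simp
  · intro i hi j hj hij
    simp only [Set.mem_ofPred_eq] at hi hj
    simp only [Nat.mod_eq_of_lt hi, Nat.mod_eq_of_lt hj] at hij
    exact hp.getVert_injOn' (by simp only [Set.mem_ofPred_eq]; omega)
      (by simp only [Set.mem_ofPred_eq]; omega) hij
  · intro v
    rw [hverts, Walk.mem_support_iff_exists_getVert]
    constructor
    · rintro ⟨i, hi, hin⟩
      rcases Nat.lt_or_ge i n with h | h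
      · exact ⟨i, h, by simp only [Nat.mod_eq_of_lt h]; exact hi⟩
      · have : i = n := le_antisymm hin h
        refine ⟨0, by omega, ?_⟩
        rw [← hi, this, hnlen]
        simp
    · rintro ⟨i, hi, hv⟩
      simp only [Nat.mod_eq_of_lt hi] at hv
      exact ⟨i, hv, hi.le⟩
  · -- neighbours
    have hadj : ∀ i, C.Adj (p.getVert (i % n)) (p.getVert ((i + 1) % n)) := by
      intro i
      have hlt : i % n < n := Nat.mod_lt _ (by omega)
      have h1 := p.adj_getVert_succ hlt
      rcases Nat.lt_or_ge (i % n + 1) n with h | h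
      · have : (i + 1) % n = i % n + 1 := by
          rw [Nat.add_mod, Nat.mod_eq_of_lt (show 1 < n by omega), Nat.mod_eq_of_lt h]
        rw [this]
        exact h1
      · have h2 : i % n + 1 = n := le_antisymm hlt h
        have : (i + 1) % n = 0 := by
          rw [Nat.add_mod, Nat.mod_eq_of_lt (show 1 < n by omega), h2, Nat.mod_self]
        rw [this]
        have h3 : p.getVert (i % n + 1) = p.getVert 0 := by
          rw [h2, hnlen]; simp
        rw [← h3]
        exact h1
    have hne : ∀ i, p.getVert (i % n) ≠ p.getVert ((i + 2) % n) := by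
      intro i heq
      have h1 : i % n < n := Nat.mod_lt _ (by omega)
      have h2 : (i + 2) % n < n := Nat.mod_lt _ (by omega)
      have h3 := hp.getVert_injOn' (by simp only [Set.mem_ofPred_eq]; omega)
        (by simp only [Set.mem_ofPred_eq]; omega) heq
      have h4 : (i + 2) ≡ i [MOD n] := h3.symm
      have h5 : (n : ℤ) ∣ ((i + 2 : ℕ) : ℤ) - (i : ℤ) := (Nat.modEq_iff_dvd.mp h4.symm)
      have h6 : (n : ℤ) ∣ 2 := by
        have : ((i + 2 : ℕ) : ℤ) - (i : ℤ) = 2 := by push_cast; ring
        rwa [this] at h5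
      have := Int.le_of_dvd (by norm_num) h6
      omega
    intro i t
    have hv : p.getVert ((i + 1) % n) ∈ C.verts := C.edge_vert (hadj (i + 1))
    have hcard := hdeg _ hv
    have hset : C.neighborSet (p.getVert ((i + 1) % n)) =
        {p.getVert (i % n), p.getVert ((i + 2) % n)} := by
      symm
      apply Set.eq_of_subset_of_ncard_le
      · rintro x (rfl | rfl)
        · exact (hadj i).symm
        · exact hadj (i + 1)
      · rw [hcard, Set.ncard_pair (hne i)]
      · exact Set.toFinite _
    have : t ∈ C.neighborSet (p.getVert ((i + 1) % n)) ↔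
        t ∈ ({p.getVert (i % n), p.getVert ((i + 2) % n)} : Set V) := by rw [hset]
    simpa using this

/-! ### From a colouring to a faithful circuit cover -/

section Colouring

variable {K : Type} [Fintype K] {G : SimpleGraph V} (M : G.Subgraph) (κ : Sym2 V → K)

/-- The spanning subgraph formed by the non-matching edges of colour `c` and the matching edges
whose end sees colour `c`. -/
def colClass (hM2 : ∀ u v, M.Adj u v → ∀ c, (∃ x, (G.Adj u x ∧ ¬ M.Adj u x) ∧ κ s(u, x) = c) →
    (∃ y, (G.Adj v y ∧ ¬ M.Adj v y) ∧ κ s(v, y) = c)) (c : K) : SimpleGraph V where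
  Adj u v := ((G.Adj u v ∧ ¬ M.Adj u v) ∧ κ s(u, v) = c) ∨
    (M.Adj u v ∧ ∃ x, (G.Adj u x ∧ ¬ M.Adj u x) ∧ κ s(u, x) = c)
  symm := by
    refine ⟨?_⟩
    rintro u v (⟨⟨h1, h2⟩, h3⟩ | ⟨h1, h2⟩)
    · left
      exact ⟨⟨h1.symm, fun h => h2 h.symm⟩, by rw [Sym2.eq_swap]; exact h3⟩
    · right
      exact ⟨h1.symm, hM2 u v h1 c h2⟩
  loopless := by
    refine ⟨?_⟩
    rintro u (⟨⟨h1, _⟩, _⟩ | ⟨h1, _⟩)
    · exact h1.ne rfl
    · exact h1.ne rfl

/-- component of a spanning subgraph `H ≤ G`, as a subgraph of `G`. -/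
def compSub {G H : SimpleGraph V} (hH : H ≤ G) (C : H.ConnectedComponent) : G.Subgraph where
  verts := C.supp
  Adj u v := H.Adj u v ∧ u ∈ C.supp
  adj_sub h := hH h.1
  edge_vert h := h.2
  symm := by
    refine ⟨?_⟩
    rintro u v ⟨h1, h2⟩
    refine ⟨h1.symm, ?_⟩
    rw [ConnectedComponent.mem_supp_iff] at h2 ⊢
    rw [← h2]
    exact ConnectedComponent.sound h1.symm.reachable

lemma compSub_connected {G H : SimpleGraph V} (hH : H ≤ G) (C : H.ConnectedComponent) :
    (compSub hH C).Connected := by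
  refine ⟨?_⟩
  refine (C.connected_toSimpleGraph).mono ?_
  intro a b hab
  have h1 : H.Adj a.1 b.1 := hab
  exact ⟨h1, a.2⟩

theorem hasFCC_of_colouring [Finite V] (hM : M.IsPerfectMatching)
    (h1 : ∀ v, ∃ x y, x ≠ y ∧ (∀ t, (G.Adj v t ∧ ¬ M.Adj v t) ↔ (t = x ∨ t = y)) ∧
      κ s(v, x) ≠ κ s(v, y))
    (h2 : ∀ u v, M.Adj u v → ∀ c, (∃ x, (G.Adj u x ∧ ¬ M.Adj u x) ∧ κ s(u, x) = c) →
    (∃ y, (G.Adj v y ∧ ¬ M.Adj v y) ∧ κ s(v, y) = c)) :
    HasFaithfulCircuitCover G (wt M) := by
  classical
  set H : K → SimpleGraph V := colClass M κ h2 with hHdef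
  have hHG : ∀ c, H c ≤ G := by
    intro c u v huv
    rcases huv with ⟨⟨h, _⟩, _⟩ | ⟨h, _⟩
    · exact h
    · exact h.adj_sub
  -- degrees in the colour classes
  have hdeg : ∀ c v, ((H c).neighborSet v).Nonempty → ((H c).neighborSet v).ncard = 2 := by
    intro c v hne
    obtain ⟨x, y, hxy, hN, hcol⟩ := h1 v
    obtain ⟨m, hm, hmu⟩ := hM.1 (hM.2 v)
    -- c is seen at v
    have hseen : ∃ x, (G.Adj v x ∧ ¬ M.Adj v x) ∧ κ s(v, x) = c := by
      obtain ⟨w, hw⟩ := hne
      rcases hw with ⟨h, h'⟩ | ⟨_, h⟩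
      · exact ⟨w, h, h'⟩
      · exact h
    obtain ⟨z, hz, hzc⟩ := hseen
    have hset : (H c).neighborSet v = {z, m} := by
      ext t
      constructor
      · rintro (⟨ht, htc⟩ | ⟨ht, _⟩)
        · left
          have hz' := (hN z).mp hz
          have ht' := (hN t).mp ht
          rcases hz' with rfl | rfl <;> rcases ht' with rfl | rfl
          · rfl
          · exact absurd (hzc.trans htc.symm) hcol
          · exact absurd (htc.trans hzc.symm) hcol
          · rfl
        · right
          exact hmu t ht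
      · rintro (rfl | rfl)
        · left
          exact ⟨hz, hzc⟩
        · right
          exact ⟨hm, z, hz, hzc⟩
    rw [hset, Set.ncard_pair]
    rintro rfl
    exact hz.2 hm
  -- the index type
  let I := Σ c : K, {C : (H c).ConnectedComponent // ∃ v ∈ C.supp, ((H c).neighborSet v).Nonempty}
  have : Finite I := by
    have : ∀ c, Finite (H c).ConnectedComponent := fun c => inferInstance
    infer_instance
  have : Fintype I := Fintype.ofFinite I
  let F : I → G.Subgraph := fun i => compSub (hHG i.1) i.2.1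
  have hF : ∀ i, IsCircuit (F i) := by
    rintro ⟨c, C, v, hvC, hv⟩
    refine ⟨compSub_connected _ _, ?_⟩
    intro u hu
    have hu' : u ∈ C.supp := hu
    have hnb : (compSub (hHG c) C).neighborSet u = (H c).neighborSet u := by
      ext t
      constructor
      · intro h; exact h.1
      · intro h; exact ⟨h, hu'⟩
    show ((compSub (hHG c) C).neighborSet u).ncard = 2
    rw [hnb]
    apply hdeg
    -- u has a neighbour in its component
    rw [ConnectedComponent.mem_supp_iff] at hu' hvC
    have hr : (H c).Reachable u v := by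
      rw [← ConnectedComponent.eq, hu', hvC]
    obtain ⟨q⟩ := hr
    cases q with
    | nil => exact hv
    | cons h q => exact ⟨_, h⟩
  -- count the members through an edge
  have hcount : ∀ e ∈ G.edgeSet, {i : I | e ∈ (F i).edgeSet}.ncard = wt M e := by
    intro e
    induction e using Sym2.ind with
    | _ u v =>
    intro he
    rw [mem_edgeSet] at he
    -- bijection with colours
    have hbij : {i : I | s(u, v) ∈ (F i).edgeSet}.ncard = {c : K | (H c).Adj u v}.ncard := by
      apply Set.ncard_congr (fun i _ => i.1)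
      · rintro ⟨c, C, hC⟩ hi
        have hi' : (H c).Adj u v ∧ u ∈ C.supp := hi
        exact hi'.1
      · rintro ⟨c, C, hC⟩ ⟨c', C', hC'⟩ hi hi' hcc
        have h3 : (H c).Adj u v ∧ u ∈ C.supp := hi
        have h4 : (H c').Adj u v ∧ u ∈ C'.supp := hi'
        simp only at hcc
        subst hcc
        have : C = C' := by
          have h5 := h3.2
          have h6 := h4.2
          rw [ConnectedComponent.mem_supp_iff] at h5 h6
          rw [← h5, ← h6]
        subst this
        rfl
      · intro c hc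
        have hc' : (H c).Adj u v := hc
        exact ⟨⟨c, (H c).connectedComponentMk u, u, rfl, ⟨v, hc'⟩⟩, ⟨hc', rfl⟩, rfl⟩
    rw [hbij]
    obtain ⟨x, y, hxy, hN, hcol⟩ := h1 u
    by_cases hMuv : M.Adj u v
    · have hset : {c : K | (H c).Adj u v} = {κ s(u, x), κ s(u, y)} := by
        ext c
        constructor
        · rintro (⟨⟨_, h⟩, _⟩ | ⟨_, z, hz, hzc⟩)
          · exact absurd hMuv h
          · rcases (hN z).mp hz with rfl | rfl
            · left; exact hzc.symm
            · right; exact hzc.symm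
        · rintro (rfl | rfl)
          · right; exact ⟨hMuv, x, (hN x).mpr (Or.inl rfl), rfl⟩
          · right; exact ⟨hMuv, y, (hN y).mpr (Or.inr rfl), rfl⟩
      rw [hset, Set.ncard_pair hcol, wt, if_pos]
      exact hMuv
    · have hset : {c : K | (H c).Adj u v} = {κ s(u, v)} := by
        ext c
        constructor
        · rintro (⟨_, h⟩ | ⟨h, _⟩)
          · exact h.symm
          · exact absurd h hMuv
        · rintro rfl
          left
          exact ⟨⟨he, hMuv⟩, rfl⟩
      rw [hset, Set.ncard_singleton, wt, if_neg]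
      exact hMuv
  -- transfer to `Fin k`
  let e := Fintype.equivFin I
  refine ⟨Fintype.card I, fun j => F (e.symm j), fun j => hF _, ?_⟩
  intro a ha
  rw [← hcount a ha]
  apply Set.ncard_congr (fun j _ => e.symm j)
  · intro j hj; exact hj
  · intro j j' _ _ h; exact e.symm.injective h
  · intro i hi
    exact ⟨e i, by simpa using hi, by simp⟩

end Colouring

/-- A cyclic sequence of colours can be put on the edges of an enumerated circuit. -/
lemma enum_colour {K : Type} [Inhabited K] {G : SimpleGraph V} {C : G.Subgraph} {n : ℕ} {c : ℕ → V}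
    (hn : 3 ≤ n) (hper : ∀ i, c (i + n) = c i) (hinj : Set.InjOn c {i | i < n})
    (hadj : ∀ i t, C.Adj (c (i + 1)) t ↔ t = c i ∨ t = c (i + 2)) (a : ℕ → K) (ha : a n = a 0) :
    ∃ κ : Sym2 V → K, ∀ k < n, ∃ x y, x ≠ y ∧ (∀ t, C.Adj (c k) t ↔ t = x ∨ t = y) ∧
      κ s(c k, x) = a k ∧ κ s(c k, y) = a (k + 1) := by
  classical
  have hinj' : ∀ i j, i < n → j < n → c i = c j → i = j := fun i j hi hj h => hinj hi hj h
  have hnext : ∀ j, j < n → ∃ j', j' < n ∧ c (j + 1) = c j' ∧
      ((j + 1 < n ∧ j' = j + 1) ∨ (j + 1 = n ∧ j' = 0)) := by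
    intro j hj
    rcases Nat.lt_or_ge (j + 1) n with h | h
    · exact ⟨j + 1, h, rfl, Or.inl ⟨h, rfl⟩⟩
    · refine ⟨0, by omega, ?_, Or.inr ⟨by omega, rfl⟩⟩
      have h2 : j + 1 = 0 + n := by omega
      rw [h2, hper]
  have hedge : ∀ i j, i < n → j < n → s(c i, c (i + 1)) = s(c j, c (j + 1)) → i = j := by
    intro i j hi hj h
    rw [Sym2.eq_iff] at h
    rcases h with ⟨h, _⟩ | ⟨h, h'⟩
    · exact hinj' i j hi hj h
    · obtain ⟨j', hj', hcj, hj2⟩ := hnext j hj
      obtain ⟨i', hi', hci, hi2⟩ := hnext i hi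
      rw [hcj] at h
      rw [hci] at h'
      have e1 := hinj' _ _ hi hj' h
      have e2 := hinj' _ _ hi' hj h'
      omega
  let κ : Sym2 V → K := fun e =>
    if h : ∃ i, i < n ∧ e = s(c i, c (i + 1)) then a (h.choose + 1) else default
  have hκ : ∀ i, i < n → κ s(c i, c (i + 1)) = a (i + 1) := by
    intro i hi
    have hex : ∃ j, j < n ∧ s(c i, c (i + 1)) = s(c j, c (j + 1)) := ⟨i, hi, rfl⟩
    have h1 : κ s(c i, c (i + 1)) = a (hex.choose + 1) := dif_pos hex
    rw [h1]
    have h2 := hex.choose_spec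
    rw [← hedge i _ hi h2.1 h2.2]
  refine ⟨κ, ?_⟩
  intro k hk
  have hck : c k = c (k + n - 1 + 1) := by
    have : k + n - 1 + 1 = k + n := by omega
    rw [this, hper]
  have hc2 : c (k + n - 1 + 2) = c (k + 1) := by
    have : k + n - 1 + 2 = k + 1 + n := by omega
    rw [this, hper]
  refine ⟨c (k + n - 1), c (k + 1), ?_, ?_, ?_, hκ k hk⟩
  · intro heq
    obtain ⟨j', hj', hcj, hj2⟩ := hnext k hk
    rw [hcj] at heq
    rcases Nat.eq_zero_or_pos k with h0 | h0
    · subst h0
      have e1 := hinj' (0 + n - 1) j' (by omega) hj' heq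
      omega
    · have h2 : k + n - 1 = (k - 1) + n := by omega
      rw [h2, hper] at heq
      have e1 := hinj' (k - 1) j' (by omega) hj' heq
      omega
  · intro t
    rw [hck, hadj, hc2]
  · rcases Nat.eq_zero_or_pos k with h0 | h0
    · subst h0
      have h1 := hκ (n - 1) (by omega)
      have h2 : n - 1 + 1 = n := by omega
      rw [h2] at h1
      have h3 : c n = c 0 := by
        have := hper 0
        rwa [zero_add] at this
      rw [zero_add, Sym2.eq_swap, ← h3, h1, ha]
    · have h1 := hκ (k - 1) (by omega)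
      have h2 : k - 1 + 1 = k := by omega
      rw [h2] at h1
      have h3 : c (k + n - 1) = c (k - 1) := by
        have : k + n - 1 = k - 1 + n := by omega
        rw [this, hper]
      rw [h3, Sym2.eq_swap, h1]

/-! ### The colouring from linear algebra over the field with two elements -/

open Pool.Agent.H36.ParityLA in
/-- For a permutation `π` of `Fin n` with `n` not congruent to `1` modulo `4` there are colours
`δ m ≠ 0` in the Klein group, and `κ₀`, such that the two sequences of partial sums agree at each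
index up to the order of the two entries. -/
lemma exists_delta (n : ℕ) (hn : n % 4 ≠ 1) (π : Fin n → Fin n) (hπ : Function.Injective π) :
    ∃ (δ : Fin n → ZMod 2 × ZMod 2) (κ₀ : ZMod 2 × ZMod 2), (∀ m, δ m ≠ 0) ∧ ∑ m, δ m = 0 ∧
      ∀ k, (κ₀ + ∑ m with π m < π k, δ m = ∑ m with m < k, δ m) ∨
        (κ₀ + ∑ m with π m < π k, δ m = ∑ m with m < k, δ m + δ k) := by
  classical
  let P : Finset (Fin n × Fin n) := Finset.univ.filter (fun p => p.1 < p.2 ∧ π p.2 < π p.1)
  have hP : ∀ p ∈ P, p.1 ≠ p.2 := by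
    intro p hp
    simp only [P, Finset.mem_filter] at hp
    exact ne_of_lt hp.2.1
  -- entries of the inversion matrix
  have hent : ∀ k m, LP P k m = (if m < k then 1 else 0) + (if π m < π k then 1 else 0) := by
    intro k m
    have h1 : LP P k m = (if (k, m) ∈ P then 1 else 0) + (if (m, k) ∈ P then 1 else 0) := by
      unfold LP
      rw [Matrix.sum_apply]
      simp only [Matrix.add_apply, Matrix.single_apply]
      rw [Finset.sum_add_distrib]
      congr 1
      · rw [← Finset.sum_ite_eq P (k, m) (fun _ => (1 : ZMod 2))]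
        apply Finset.sum_congr rfl
        rintro ⟨a, b⟩ _
        simp only [Prod.mk.injEq]
        congr 1
        simp only [eq_iff_iff]
        constructor
        · rintro ⟨rfl, rfl⟩; exact ⟨rfl, rfl⟩
        · rintro ⟨rfl, rfl⟩; exact ⟨rfl, rfl⟩
      · rw [← Finset.sum_ite_eq P (m, k) (fun _ => (1 : ZMod 2))]
        apply Finset.sum_congr rfl
        rintro ⟨a, b⟩ _
        simp only [Prod.mk.injEq]
        congr 1
        simp only [eq_iff_iff]
        constructor
        · rintro ⟨rfl, rfl⟩; exact ⟨rfl, rfl⟩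
        · rintro ⟨rfl, rfl⟩; exact ⟨rfl, rfl⟩
    rw [h1]
    simp only [P, Finset.mem_filter, Finset.mem_univ, true_and]
    rcases lt_trichotomy k m with h | h | h
    · have h2 : ¬ m < k := not_lt.mpr h.le
      have h3 : π k ≠ π m := fun h' => (ne_of_lt h) (hπ h')
      by_cases h4 : π m < π k
      · simp [h, h2, h4]
      · simp [h, h2, h4]
    · subst h
      simp
    · have h2 : ¬ k < m := not_lt.mpr h.le
      have h3 : π k ≠ π m := fun h' => (ne_of_gt h) (hπ h')
      by_cases h4 : π m < π k
      · have h5 : ¬ π k < π m := not_lt.mpr h4.le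
        simp only [h, h2, h4, h5, and_false, false_and, if_false, if_true, add_zero]
        decide
      · have h5 : π k < π m := lt_of_le_of_ne (not_lt.mp h4) h3
        simp [h, h2, h4, h5]
  -- the kernel pair
  have hpair : ∃ (s : Fin n → ZMod 2) (z z' : Option (Fin n) → ZMod 2),
      (bord (LP P) + Matrix.diagonal (ext0 s)).mulVec z = 0 ∧
      (bord (LP P) + Matrix.diagonal (ext0 s)).mulVec z' = 0 ∧
      ∀ i, z (some i) ≠ 0 ∨ z' (some i) ≠ 0 := by
    by_cases h3 : n % 4 = 3
    · exact exists_full_pair_of_odd P hP (by rw [Fintype.card_fin]; exact h3)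
    · refine ⟨fun k => ∑ m, LP P k m, fun o => o.elim 0 (fun _ => 1), 0, ?_, ?_, ?_⟩
      · ext o
        cases o with
        | none =>
          rw [mulVec_bord_none]
          simp only [Option.elim, Finset.sum_const, Finset.card_univ, Fintype.card_fin,
            Pi.zero_apply, nsmul_eq_mul, mul_one]
          rw [ZMod.natCast_eq_zero_iff]
          omega
        | some k =>
          rw [mulVec_bord_some]
          simp only [Option.elim, mul_one, zero_add, Pi.zero_apply]
          exact CharTwo.add_self_eq_zero _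
      · exact Matrix.mulVec_zero _
      · intro i
        left
        simp
  obtain ⟨s, z, z', hz, hz', hfull⟩ := hpair
  -- scalar version of the key identity
  have key : ∀ w : Option (Fin n) → ZMod 2,
      (bord (LP P) + Matrix.diagonal (ext0 s)).mulVec w = 0 → ∀ k,
        w none + ∑ m with π m < π k, w (some m) = ∑ m with m < k, w (some m) + s k * w (some k) := by
    intro w hw k
    have h1 := congrFun hw (some k)
    rw [mulVec_bord_some] at h1
    simp only [hent, add_mul, ite_mul, one_mul, zero_mul, Pi.zero_apply] at h1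
    rw [Finset.sum_add_distrib, ← Finset.sum_filter, ← Finset.sum_filter] at h1
    have h2 := CharTwo.add_self_eq_zero (∑ m with m < k, w (some m))
    have h3 := CharTwo.add_self_eq_zero (s k * w (some k))
    linear_combination h1 - h2 - h3
  have hsum : ∀ w : Option (Fin n) → ZMod 2,
      (bord (LP P) + Matrix.diagonal (ext0 s)).mulVec w = 0 → ∑ m, w (some m) = 0 := by
    intro w hw
    have h1 := congrFun hw none
    rw [mulVec_bord_none] at h1
    exact h1
  refine ⟨fun m => (z (some m), z' (some m)), (z none, z' none), ?_, ?_, ?_⟩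
  · intro m hm
    rw [Prod.mk_eq_zero] at hm
    rcases hfull m with h | h
    · exact h hm.1
    · exact h hm.2
  · rw [Prod.ext_iff]
    refine ⟨?_, ?_⟩
    · rw [Prod.fst_sum]; exact hsum z hz
    · rw [Prod.snd_sum]; exact hsum z' hz'
  · intro k
    have e1 := key z hz k
    have e2 := key z' hz' k
    rcases zmod2_cases (s k) with h | h
    · left
      rw [h, zero_mul, add_zero] at e1 e2
      rw [Prod.ext_iff]
      simp only [Prod.fst_add, Prod.snd_add, Prod.fst_sum, Prod.snd_sum]
      exact ⟨e1, e2⟩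
    · right
      rw [h, one_mul] at e1 e2
      rw [Prod.ext_iff]
      simp only [Prod.fst_add, Prod.snd_add, Prod.fst_sum, Prod.snd_sum]
      exact ⟨e1, e2⟩

/-- **Main theorem.** Let `G` be a permutation graph: a finite cubic graph with a perfect matching
`M` such that `G - M` is the union of two vertex-disjoint chordless circuits, and let `w` be `2` on
`M` and `1` off `M`. If `|V(G)|` is not congruent to `2` modulo `8` then `(G, w)` has a faithful
circuit cover. -/
theorem result {V : Type*} [Finite V] (G : SimpleGraph V) (M C₁ C₂ : G.Subgraph)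
    (h : IsPermutationGraph G M C₁ C₂) (hn : Nat.card V % 8 ≠ 2) :
    HasFaithfulCircuitCover G (wt M) := by
  classical
  obtain ⟨n, c, hn3, hper, hinj, hverts, hadj⟩ := exists_enum h.circuit₁
  obtain ⟨n', c', hn3', hper', hinj', hverts', hadj'⟩ := exists_enum h.circuit₂
  have hMuniq : ∀ v w w', M.Adj v w → M.Adj v w' → w = w' := by
    intro v w w' h1 h2
    exact (h.perfect.1 (h.perfect.2 v)).unique h1 h2
  -- every vertex lies on one of the circuits
  have hcover : ∀ v, v ∈ C₁.verts ∨ v ∈ C₂.verts := by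
    intro v
    obtain ⟨m, hm, hmu⟩ := h.perfect.1 (h.perfect.2 v)
    have : ∃ t, t ∈ G.neighborSet v ∧ t ≠ m := by
      by_contra hcon
      push Not at hcon
      have hsub : G.neighborSet v ⊆ {m} := fun t ht => hcon t ht
      have := Set.ncard_le_ncard hsub (Set.finite_singleton m)
      rw [h.cubic v, Set.ncard_singleton] at this
      omega
    obtain ⟨t, ht, htm⟩ := this
    have h1 := (h.union v t).mp ⟨ht, fun hMt => htm (hmu t hMt)⟩
    rcases h1 with h1 | h1
    · exact Or.inl (C₁.edge_vert h1)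
    · exact Or.inr (C₂.edge_vert h1)
  have hnot : ∀ v, v ∈ C₁.verts → v ∉ C₂.verts := fun v h1 h2 =>
    Set.disjoint_left.mp h.disjoint h1 h2
  have hcross₁ : ∀ u v, M.Adj u v → u ∈ C₁.verts → v ∈ C₂.verts := by
    intro u v huv hu
    rcases hcover v with hv | hv
    · exfalso
      have h1 : C₁.Adj u v := h.chordless₁ hu hv huv.adj_sub
      exact ((h.union u v).mpr (Or.inl h1)).2 huv
    · exact hv
  have hcross₂ : ∀ u v, M.Adj u v → u ∈ C₂.verts → v ∈ C₁.verts := by
    intro u v huv hu
    rcases hcover v with hv | hv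
    · exact hv
    · exfalso
      have h1 : C₂.Adj u v := h.chordless₂ hu hv huv.adj_sub
      exact ((h.union u v).mpr (Or.inr h1)).2 huv
  have hc1 : ∀ i : Fin n, c i ∈ C₁.verts := fun i => (hverts _).mpr ⟨i, i.2, rfl⟩
  have hc2 : ∀ i : Fin n', c' i ∈ C₂.verts := fun i => (hverts' _).mpr ⟨i, i.2, rfl⟩
  -- the permutation
  have hmate : ∀ i : Fin n, ∃ j : Fin n', M.Adj (c i) (c' j) := by
    intro i
    obtain ⟨m, hm, _⟩ := h.perfect.1 (h.perfect.2 (c i))
    obtain ⟨j, hj, hjm⟩ := (hverts' m).mp (hcross₁ _ _ hm (hc1 i))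
    exact ⟨⟨j, hj⟩, by simpa [hjm] using hm⟩
  choose f hf using hmate
  have hfinj : Function.Injective f := by
    intro i j hij
    have h1 := hf i
    have h2 := hf j
    rw [← hij] at h2
    have h3 := hMuniq _ _ _ h1.symm h2.symm
    exact Fin.ext (hinj i.2 j.2 h3)
  have hfsurj : Function.Surjective f := by
    intro j
    obtain ⟨m, hm, _⟩ := h.perfect.1 (h.perfect.2 (c' j))
    obtain ⟨i, hi, him⟩ := (hverts m).mp (hcross₂ _ _ hm (hc2 j))
    refine ⟨⟨i, hi⟩, ?_⟩
    have h1 := hf ⟨i, hi⟩
    have h2 : M.Adj (c i) (c' j) := by rw [him]; exact hm.symm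
    have h3 := hMuniq _ _ _ h1 h2
    exact Fin.ext (hinj' (f ⟨i, hi⟩).2 j.2 h3)
  obtain rfl : n = n' := by
    have := Fintype.card_of_bijective ⟨hfinj, hfsurj⟩
    simpa using this
  -- number of vertices
  have hcard : Nat.card V = 2 * n := by
    let φ : Fin n ⊕ Fin n → V := Sum.elim (fun i => c i) (fun i => c' i)
    have hφ : Function.Bijective φ := by
      constructor
      · rintro (i | i) (j | j) hij
        · have : c i = c j := hij
          rw [Fin.ext (hinj i.2 j.2 this)]
        · exfalso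
          have h1 : c i = c' j := hij
          have h2 := hc1 i
          rw [h1] at h2
          exact hnot _ h2 (hc2 j)
        · exfalso
          have h1 : c' i = c j := hij
          have h2 := hc1 j
          rw [← h1] at h2
          exact hnot _ h2 (hc2 i)
        · have : c' i = c' j := hij
          rw [Fin.ext (hinj' i.2 j.2 this)]
      · intro v
        rcases hcover v with hv | hv
        · obtain ⟨i, hi, hiv⟩ := (hverts v).mp hv
          exact ⟨Sum.inl ⟨i, hi⟩, hiv⟩
        · obtain ⟨i, hi, hiv⟩ := (hverts' v).mp hv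
          exact ⟨Sum.inr ⟨i, hi⟩, hiv⟩
    rw [← Nat.card_eq_of_bijective φ hφ, Nat.card_eq_fintype_card, Fintype.card_sum,
      Fintype.card_fin]
    ring
  have hnmod : n % 4 ≠ 1 := by omega
  obtain ⟨δ, κ₀, hδ, hδsum, hkey⟩ := exists_delta n hnmod f hfinj
  -- partial sums
  let a : ℕ → ZMod 2 × ZMod 2 := fun i => ∑ m with m.val < i, δ m
  let b : ℕ → ZMod 2 × ZMod 2 := fun j => κ₀ + ∑ m with (f m).val < j, δ m
  have ha0 : a 0 = 0 := by simp [a]
  have han : a n = 0 := by
    simp only [a]
    rw [Finset.filter_true_of_mem (fun m _ => m.2)]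
    exact hδsum
  have hb0 : b 0 = κ₀ := by simp [b]
  have hbn : b n = κ₀ := by
    simp only [b]
    rw [Finset.filter_true_of_mem (fun m _ => (f m).2), hδsum, add_zero]
  have hastep : ∀ k : Fin n, a (k + 1) = a k + δ k := by
    intro k
    simp only [a]
    have : (Finset.univ.filter (fun m : Fin n => m.val < k.val + 1)) =
        insert k (Finset.univ.filter (fun m : Fin n => m.val < k.val)) := by
      ext m
      simp only [Finset.mem_filter, Finset.mem_univ, true_and, Finset.mem_insert]
      constructor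
      · intro hm
        by_cases hmk : m = k
        · exact Or.inl hmk
        · right
          have : m.val ≠ k.val := fun h' => hmk (Fin.ext h')
          omega
      · rintro (rfl | hm)
        · omega
        · omega
    rw [this, Finset.sum_insert (by simp), add_comm]
  have hbstep : ∀ k : Fin n, b (f k + 1) = b (f k) + δ k := by
    intro k
    simp only [b]
    have : (Finset.univ.filter (fun m : Fin n => (f m).val < (f k).val + 1)) =
        insert k (Finset.univ.filter (fun m : Fin n => (f m).val < (f k).val)) := by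
      ext m
      simp only [Finset.mem_filter, Finset.mem_univ, true_and, Finset.mem_insert]
      constructor
      · intro hm
        by_cases hmk : m = k
        · exact Or.inl hmk
        · right
          have : (f m).val ≠ (f k).val := fun h' => hmk (hfinj (Fin.ext h'))
          omega
      · rintro (rfl | hm)
        · omega
        · omega
    rw [this, Finset.sum_insert (by simp)]
    abel
  have hself : ∀ x : ZMod 2 × ZMod 2, x + x = 0 := by decide
  have hab : ∀ k : Fin n, (b (f k) = a k ∧ b (f k + 1) = a (k + 1)) ∨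
      (b (f k) = a (k + 1) ∧ b (f k + 1) = a k) := by
    intro k
    rcases hkey k with h1 | h1
    · left
      have h2 : b (f k) = a k := h1
      exact ⟨h2, by rw [hbstep, hastep, h2]⟩
    · right
      have h2 : b (f k) = a (k + 1) := by rw [hastep]; exact h1
      refine ⟨h2, ?_⟩
      rw [hbstep, h2, hastep, add_assoc, hself, add_zero]
  have haδ : ∀ k : Fin n, a k ≠ a (k + 1) := by
    intro k heq
    rw [hastep] at heq
    exact hδ k (by simpa using heq)
  -- the colouring
  obtain ⟨κ₁, hκ₁⟩ := enum_colour hn3 hper hinj hadj a (by rw [han, ha0])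
  obtain ⟨κ₂, hκ₂⟩ := enum_colour hn3' hper' hinj' hadj' b (by rw [hbn, hb0])
  let κ : Sym2 V → ZMod 2 × ZMod 2 := fun e => if e ∈ C₁.edgeSet then κ₁ e else κ₂ e
  have hv1 : ∀ k : Fin n, ∃ x y, x ≠ y ∧
      (∀ t, (G.Adj (c k) t ∧ ¬ M.Adj (c k) t) ↔ (t = x ∨ t = y)) ∧
      κ s(c k, x) = a k ∧ κ s(c k, y) = a (k + 1) := by
    intro k
    obtain ⟨x, y, hxy, hN, hx, hy⟩ := hκ₁ k k.2
    refine ⟨x, y, hxy, ?_, ?_, ?_⟩
    · intro t
      rw [h.union, ← hN]
      constructor
      · rintro (h1 | h1)
        · exact h1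
        · exact absurd (C₂.edge_vert h1) (hnot _ (hc1 k))
      · exact Or.inl
    · have : s(c k, x) ∈ C₁.edgeSet := (hN x).mpr (Or.inl rfl)
      simp only [κ, if_pos this, hx]
    · have : s(c k, y) ∈ C₁.edgeSet := (hN y).mpr (Or.inr rfl)
      simp only [κ, if_pos this, hy]
  have hv2 : ∀ k : Fin n, ∃ x y, x ≠ y ∧
      (∀ t, (G.Adj (c' (f k)) t ∧ ¬ M.Adj (c' (f k)) t) ↔ (t = x ∨ t = y)) ∧
      κ s(c' (f k), x) = b (f k) ∧ κ s(c' (f k), y) = b (f k + 1) := by
    intro k
    obtain ⟨x, y, hxy, hN, hx, hy⟩ := hκ₂ (f k) (f k).2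
    have hno : ∀ t, s(c' (f k), t) ∉ C₁.edgeSet := fun t ht =>
      hnot _ (C₁.edge_vert ht) (hc2 (f k))
    refine ⟨x, y, hxy, ?_, ?_, ?_⟩
    · intro t
      rw [h.union, ← hN]
      constructor
      · rintro (h1 | h1)
        · exact absurd (hc2 (f k)) (hnot _ (C₁.edge_vert h1))
        · exact h1
      · exact Or.inr
    · simp only [κ, if_neg (hno x), hx]
    · simp only [κ, if_neg (hno y), hy]
  -- colours seen at the two ends of a matching edge
  have hs1 : ∀ k : Fin n, ∀ col, (∃ x, (G.Adj (c k) x ∧ ¬ M.Adj (c k) x) ∧ κ s(c k, x) = col) ↔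
      (col = a k ∨ col = a (k + 1)) := by
    intro k col
    obtain ⟨x, y, hxy, hN, hx, hy⟩ := hv1 k
    constructor
    · rintro ⟨t, ht, rfl⟩
      rcases (hN t).mp ht with rfl | rfl
      · exact Or.inl hx
      · exact Or.inr hy
    · rintro (rfl | rfl)
      · exact ⟨x, (hN x).mpr (Or.inl rfl), hx⟩
      · exact ⟨y, (hN y).mpr (Or.inr rfl), hy⟩
  have hs2 : ∀ k : Fin n, ∀ col, (∃ x, (G.Adj (c' (f k)) x ∧ ¬ M.Adj (c' (f k)) x) ∧
      κ s(c' (f k), x) = col) ↔ (col = a k ∨ col = a (k + 1)) := by
    intro k col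
    obtain ⟨x, y, hxy, hN, hx, hy⟩ := hv2 k
    have h1 : (∃ t, (G.Adj (c' (f k)) t ∧ ¬ M.Adj (c' (f k)) t) ∧ κ s(c' (f k), t) = col) ↔
        (col = b (f k) ∨ col = b (f k + 1)) := by
      constructor
      · rintro ⟨t, ht, rfl⟩
        rcases (hN t).mp ht with rfl | rfl
        · exact Or.inl hx
        · exact Or.inr hy
      · rintro (rfl | rfl)
        · exact ⟨x, (hN x).mpr (Or.inl rfl), hx⟩
        · exact ⟨y, (hN y).mpr (Or.inr rfl), hy⟩
    rw [h1]
    rcases hab k with ⟨h2, h3⟩ | ⟨h2, h3⟩
    · rw [h2, h3]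
    · rw [h2, h3]; exact or_comm
  apply hasFCC_of_colouring M κ h.perfect
  · intro v
    rcases hcover v with hv | hv
    · obtain ⟨k, hk, rfl⟩ := (hverts v).mp hv
      obtain ⟨x, y, hxy, hN, hx, hy⟩ := hv1 ⟨k, hk⟩
      refine ⟨x, y, hxy, hN, ?_⟩
      intro heq
      exact haδ ⟨k, hk⟩ (hx.symm.trans (heq.trans hy))
    · obtain ⟨j, hj, rfl⟩ := (hverts' v).mp hv
      obtain ⟨k, hk⟩ := hfsurj ⟨j, hj⟩
      have hfk : (f k).val = j := by rw [hk]
      obtain ⟨x, y, hxy, hN, hx, hy⟩ := hv2 k
      rw [hfk] at hN hx hy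
      refine ⟨x, y, hxy, hN, ?_⟩
      intro heq
      have h1 : b j = b (j + 1) := hx.symm.trans (heq.trans hy)
      rw [← hfk] at h1
      rcases hab k with ⟨h2, h3⟩ | ⟨h2, h3⟩
      · exact haδ k (by rw [← h2, ← h3]; exact h1)
      · exact haδ k (by rw [← h2, ← h3]; exact h1.symm)
  · intro u v huv col hcol
    rcases hcover u with hu | hu
    · obtain ⟨k, hk, rfl⟩ := (hverts u).mp hu
      have h1 : v = c' (f ⟨k, hk⟩) := hMuniq _ _ _ huv (hf ⟨k, hk⟩)
      rw [h1, hs2 ⟨k, hk⟩]
      exact (hs1 ⟨k, hk⟩ col).mp hcol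
    · obtain ⟨j, hj, rfl⟩ := (hverts' u).mp hu
      obtain ⟨k, hk⟩ := hfsurj ⟨j, hj⟩
      have hfk : (f k).val = j := by rw [hk]
      have h0 := hf k
      rw [hfk] at h0
      have h1 : v = c k := hMuniq _ _ _ huv h0.symm
      rw [h1, hs1 k]
      have h2 := hs2 k col
      rw [hfk] at h2
      exact h2.mp hcol

end Pool.Agent.Results.MP_a46c6f_co.ParityFCC
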