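import Mathlib
import Pool.Agent.H62.Q1.Final

set_option autoImplicit false

namespace Pool.Agent.Results.MP_a46c6f_co.Goddyn

open SimpleGraph Pool.Agent.H5.Goddyn Pool.Agent.H64.Pent

/-- **Goddyn's conjecture on permutation graphs (Q1).** Let `G` be a permutation graph with perfect
matching `M` and circuits `C₁`, `C₂`, and let `w` be `2` on `M` and `1` off `M`. If `(G, w)` is a
critical contra pair, then `(G, w)` is isomorphic to `(P₁₀, w₁₀)`. -/
theorem result {V : Type*} [Finite V] (G : SimpleGraph V) (M C₁ C₂ : G.Subgraph)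
    (h : IsPermutationGraph G M C₁ C₂) (hcrit : IsCriticalContraPair G (wt M)) :
    IsPetersenPair G M :=
  Pool.Agent.H62.Q1.goddyn G M C₁ C₂ h hcrit

end Pool.Agent.Results.MP_a46c6f_co.Goddyn
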